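import Pool.Agent.U34.BRM.Main

/-!
# Tate classes and poles of zeta functions for the products of any number of varieties of bounded
complexity with abelian varieties: reduction to one variety and an abelian variety of bounded dimension

Let `p` be a prime number and `n` a positive integer. Let `W_i`, for `i` in `K`, be **arbitrary** smooth
projective varieties over the field with `p ^ a` elements (any number of them) and choose degrees
`b_i ≤ n`, such that the dimension of `H^{b_i}(W_i)` is at most `n`. Let `Y` be an abelian variety over a
finite field of characteristic `p` of **any** dimension whose simple factors (over an algebraic closure)
have dimension at most `n / 2`. The order of the pole of the zeta function of `Y × W_1 × ... × W_m` at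
`s = c` (after a finite extension of the ground field) is the sum of the numbers of the (generalised)
Tate classes in the Künneth components `H^κ(Y) ⊗ H^{b_1}(W_1) ⊗ ... ⊗ H^{b_m}(W_m)` of degree `2 c`.

**Theorem.** All generalised Tate classes in all these Künneth components, for any number `m` of
varieties (repetitions are allowed), over all finite extensions of the ground field, are generated by

* the Tate classes of degree two on abelian varieties (divisor classes, by the theorem of Tate), and
* the generalised Tate classes on `A`, and in `H^κ(A) ⊗ H^{b_i}(W_i)` for **one single** variety `W_i`,
  where `A` is an abelian variety of dimension at most `B(n)`, an explicit function of `n` alone,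

under linear combinations, cup products, pull-backs along homomorphisms of abelian varieties and
push-forwards along projections of abelian varieties (the system `AlgW`).

All these operations preserve algebraic classes. So the conjecture of Tate on the orders of the poles,
in the strong form that the generalised Tate classes are combinations of algebraic classes, for **all**
products `Y × W_1 × ... × W_m`, follows from the same assertion for the products `A × W_i` of at most
one of the varieties with abelian varieties of dimension at most `B(n)`. For example: for all products of
surfaces with Betti numbers at most `n` (any number of factors; the parts `H^1` and `H^3` belong to abelian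
varieties) it follows from that for the products of one such surface with an abelian variety of
dimension at most `B(n)`.

What was known. The helper theorem `Pool.Agent.R937.VS.Final.main` of the starting files and the starting
results `SeparatedTimesSurfaces` and `K3TimesSurfaces` treat **one** variety `V` times elliptic
curves and abelian surfaces. The starting files `Pool/Agent/R937/BR` contain the preparations for the
present theorem (the combinatorics of the functions on the Galois group, and the monomial case
`mono_mem`), but not the theorem; the last step (the common field, the decomposition of a Tate class
according to the eigenvalues of all factors, and the elimination of the components which do not satisfy a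
relation) is in `Pool/Agent/U34/BRM/Main.lean`.

How the objects are modelled. `RedAV p ν` are the abelian varieties over finite fields of characteristic
`p`, up to isogeny over an algebraic closure: by Honda and Tate each of them is the reduction of a product
of abelian varieties of CM type, with Frobenius elements that satisfy the formula of Shimura and
Taniyama; `[E : ℚ] ≤ n` for the CM field `E` of a factor means that this factor has dimension at most
`n / 2`. `H i` is the dual space of `H^{b_i}(W_i)` with coefficients in an algebraically closed field `Ω` of
characteristic zero, `φ i` is the transpose of the Frobenius endomorphism. The elements of
`H^κ(Y) ⊗ (⊗_{i ∈ T} H^{b_i}(W_i))` are the alternating maps in the variables `κ` from the Tate module of `Y`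
to the space of the multilinear forms on the spaces `H i`, `i ∈ T`. The hypothesis `IsWeil` is a theorem
for varieties with `dim H^{b_i}(W_i) ≤ n`: the eigenvalues are Weil numbers of weight `b_i` (Deligne) of
degree at most `n` whose slopes have denominators dividing `n!` (Manin, Katz and Messing).
-/

namespace Pool.Agent.Results.MP_557161_ag.BoundedReduction

open Module Pool.Agent.W495.TA Pool.Agent.R937.BR

/-- The common denominator `M(n)`. -/
def M (n : ℕ) : ℕ := n.factorial * n.factorial.factorial

/-- A bound for the number of factors that are needed. -/
def E (n : ℕ) : ℕ :=
  (2 ^ n.factorial * n.factorial) * (M n * (n * (2 ^ n.factorial).factorial))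

/-- The bound `B(n)` for the dimension. -/
def B (n : ℕ) : ℕ := (E n + 2) * (n.factorial * M n)

/-- **The generalised Tate classes on the products of any number of varieties `W_i` of complexity at most
`n` with abelian varieties whose simple factors have dimension at most `n / 2` are generated by divisor
classes and by the generalised Tate classes on `A` and `A × W_i`, with one single `i`, for abelian
varieties `A` of dimension at most `B n`.** -/
theorem result (p : ℕ) [Fact p.Prime] (ν : PadicAlgCl p ≃+* ℂ) (Ω : Type) [Field Ω] [IsAlgClosed Ω]
    [CharZero Ω] (n a : ℕ) (hn : 0 < n) (ha : 0 < a)
    -- the varieties: `H i` is the dual of `H^{b i}(W_i)`, `φ i` the transpose of Frobenius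
    (K : Type) [DecidableEq K] (H : K → Type) [∀ i, AddCommGroup (H i)] [∀ i, Module Ω (H i)]
    [∀ i, FiniteDimensional Ω (H i)] (φ : ∀ i, H i →ₗ[Ω] H i) (b : K → ℕ)
    -- the set `T` of the factors of the product
    (T : Finset K) (hb : ∀ i ∈ T, b i ≤ n)
    (hφ : ∀ i ∈ T, ∀ α, End.HasEigenvalue (φ i) α → IsWeil p ν a (b i) n α)
    -- the abelian variety
    (Y : RedAV p ν) (hY : ∀ i, finrank ℚ (Y.X.factor i).E ≤ n)
    -- the class
    (r k : ℕ) (g : Cls Ω H T Y (Fin k)) (hg : IsTate a φ r g) :
    AlgW a φ (B n) T Y (Fin k) g :=
  Pool.Agent.U34.BRM.main n a hn ha φ b T hb hφ Y hY r k g hg

end Pool.Agent.Results.MP_557161_ag.BoundedReduction
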