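import Pool.Agent.U227.NmMain

/-!
# Tate's formula for the poles of the zeta function of `X × X`: no defect smaller than two

Let `X` be a variety of dimension `n` over the algebraic closure of a finite field, in a class of smooth
proper varieties closed under products, `W` a Weil cohomology theory with algebraically closed
coefficient field `K`, `D` a divisor on `X` which satisfies the hard Lefschetz theorem, and `f` the
Frobenius endomorphism of `X` relative to the field with `q` elements. Let `P` be the multiplicity of
`q ^ n` as an eigenvalue of Frobenius on `H^(2n)(X × X)`, the order of the pole of `ζ(X × X, s)` at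
`s = n`, and let `R` be the rank of the group of the cycles of codimension `n` on `X × X` modulo numerical
equivalence. Tate's conjecture says `R = P`.

**Theorem.**
1. Let `V` be the part of `H^i(X)` belonging to the eigenvalue `α` of Frobenius, `m = dim V`. If a subspace
   `T` of `V` of dimension `s`, `0 < s < m`, is stable under all correspondences of degree zero, then
   `R + 2 s (m - s) ≤ P`; and `R + 4 s (m - s) ≤ P` if `i ≠ n` or `α ^ 2 ≠ q ^ n`.
2. If `P ≤ R + 1`, then `R = P`, the generalised eigenspaces for `q ^ n` in `H^(2n)(X × X)` and for `q ^ j`
   in `H^(2j)(X)`, all `j`, are spanned by classes of cycles, the Frobenius is semisimple on `H(X)`, and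
   numerically trivial cycles of codimension `n` on `X × X` are homologically trivial.
3. If no `α` with `α ^ 2 = q ^ n` is an eigenvalue of Frobenius on `H^n(X)`, the same is true if
   `P ≤ R + 3`.

So Tate's formula for `X × X` can never fail by exactly one, and fails by at least four if it fails and
the condition of 3 is true: it is enough to find all but one (three) of the expected independent cycles.

Proof. Correspondences respect the parts `V`. If `T` is stable and `R > P - 2 s (m - s)`, some
combination of numerically independent correspondences is not zero, but maps `V` to `T` and `T` to zero and
vanishes on the other parts; its product with every correspondence is nilpotent, so by the Lefschetz trace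
formula its intersection numbers vanish, a contradiction. If `T` is stable, then so is its orthogonal
space in the dual part, of codimension `s`; this doubles the defect unless the part is its own dual.
Without stable subspaces the theorem of Burnside shows that all operators of every `V` come from
correspondences, so that the Frobenius acts on `V` as a scalar, and the projectors to the `V` are
polynomials in the Frobenius and the Künneth projectors (Katz-Messing); hence all operators commuting
with the Frobenius are combinations of correspondences. The rest follows from Poincaré duality for the
eigenspace.
-/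

set_option autoImplicit false

universe u v

namespace Pool.Agent.Results.MP_557161_ag.NearMiss

open CategoryTheory Pool.Agent.H914 Pool.Agent.H914.VarClass Pool.Agent.H914.VarClass.Obj
  Pool.Agent.H914.WeilCohomology Pool.Agent.U227.Fr Pool.Agent.U227.Jb Pool.Agent.U227.Nm

/-- **Tate's formula for the square of a variety has no small defects.** -/
theorem result {k : Type u} [Field k] {𝒱 : VarClass k} {ops : CycleOps 𝒱}
    (W : WeilCohomology.{u, v} ops) [IsAlgClosed W.K] (X : 𝒱.Obj) (D : X.Cycles)
    (hD : X.IsCyc 1 D) (hHL : HardLefschetz W X D) (f : X ⟶ X) (q : ℕ) (hq : 1 < q)
    (hF : IsFrobenius W X f q) (hRH : RiemannHypothesis W X f q) (r : ℕ)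
    (hr : NumRankAtLeast ops (X.prod X) X.dim r) :
    (∀ i α T, IsStablePart (cycOps W X X.dim) (eigenPart W X f i α) T →
      r + 2 * dimProd (eigenPart W X f i α) T ≤ poleOrder W X f q ∧
      ((i ≠ X.dim ∨ α ^ 2 ≠ (q : W.K) ^ X.dim) →
        r + 4 * dimProd (eigenPart W X f i α) T ≤ poleOrder W X f q)) ∧
    (poleOrder W X f q ≤ r + 1 → TateForSquare W X f q) ∧
    ((∀ α : W.K, α ^ 2 = (q : W.K) ^ X.dim → eigenPart W X f X.dim α = ⊥) →
      poleOrder W X f q ≤ r + 3 → TateForSquare W X f q) :=
  main hD hHL hF hq hRH hr

end Pool.Agent.Results.MP_557161_ag.NearMiss
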