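import Pool.Agent.U226.SR.Main

/-!
# MP_557161_ag: homological and numerical equivalence agree on all the powers of a variety, or the
cycles account for a proportion `O(n ^ (-1/2))` of the poles of the zeta functions of its powers

For a smooth projective variety `X` over an algebraic closure of a finite field, let `R(X)` be the
sum over `c = 0, …, dim X` of the ranks of the groups of cycles of codimension `c` modulo numerical
equivalence, and let `P(X)` be the sum of the orders of the poles at `s = 0, …, dim X` of the zeta
function of `X` over a large finite field, so that `R(X) ≤ P(X)`.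

Let `Y` be **any** variety. Then:

* either homological and numerical equivalence agree on **all the powers** of `Y` in **all
  codimensions** (Grothendieck's standard conjecture D),
* or, for **every** variety `Z`, there is `C` such that, for all `n`,
  `R(Y ^ n × Z) ≤ C (n + 1) ^ (-1/2) P(Y ^ n × Z)`.

So the standard conjecture D holds for all the powers of `Y` as soon as, for one variety `Z` and
one `ε > 0`, cycles account for the proportion `ε` of the poles of the zeta functions of
`Y ^ n × Z` for infinitely many `n` (even the proportion `g(n) n ^ (-1/2)` with `g` unbounded is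
enough). Nothing is assumed on `Y` and `Z`; the Riemann hypothesis (Deligne) is a hypothesis.
-/

set_option autoImplicit false

open CategoryTheory AlgebraicGeometry

universe u v

namespace Pool.Agent.Results.MP_557161_ag.SquareRootShare

open Pool.Agent.H914 Pool.Agent.W534 Pool.Agent.N181.Gap

/-- **Standard conjecture D, or a vanishing proportion of the poles.** -/
theorem result {k : Type u} [Field k] {𝒱 : VarClass k} {ops : CycleOps 𝒱}
    (W : WeilCohomology.{u, v} ops) [IsAlgClosed W.K] (σ : W.K →+* ℂ) (p : ℕ) (hp : p.Prime)
    (Φ : FrobSystem W p) (hRH : ∀ Z : 𝒱.Obj, RiemannHyp Φ σ Z) (Y : 𝒱.Obj) :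
    (∀ n, HomEqNum W (powProd Y Y n)) ∨
    ∀ Z : 𝒱.Obj, ∃ C : ℝ, 0 ≤ C ∧ ∀ n : ℕ, ∃ P : ℕ,
      PoleSum Φ σ (powProd Y Z n) P ∧
      (rkSum ops (powProd Y Z n) : ℝ) ≤ C / Real.sqrt (n + 1) * P :=
  Pool.Agent.U226.SR.main_sqrt W σ p hp Φ hRH Y

end Pool.Agent.Results.MP_557161_ag.SquareRootShare
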