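import Pool.Agent.U407.NP14

/-!
The order of the pole of the zeta function and the numerical rank of the group of cycles for the
products of a surface `y ^ p - y = f(x, t)` and an arbitrary variety over a finite field.
-/

set_option autoImplicit false
set_option maxHeartbeats 1000000

open Polynomial Module TensorProduct

namespace Pool.Agent.Results.MP_557161_ag.TimesArtinSchreierSurfaces

section surface

variable {κ : Type} [Field κ]

/-- The polynomial `f` in `x` (outer variable) and `t` (inner variable) has the form
`f = u x ^ a + w t ^ b + (terms with x ^ m t ^ n for which b m + a n < a b)`, `u, w ≠ 0`. -/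
structure HasLeadingExponents (a b : ℕ) (f : κ[X][X]) : Prop where
  pos_a : a ≠ 0
  pos_b : b ≠ 0
  coeff_x : (f.coeff a).coeff 0 ≠ 0
  coeff_t : (f.coeff 0).coeff b ≠ 0
  rest : ∀ m n, (f.coeff m).coeff n ≠ 0 →
    (m = a ∧ n = 0) ∨ (m = 0 ∧ n = b) ∨ b * m + a * n < a * b

/-- The number of points `v = (t, x, y)` over the field with `Q` elements of the surface
`y ^ p - y = f(x, t)`. -/
noncomputable def points (p : ℕ) (f : κ[X][X]) (Q : ℕ) : ℕ :=
  Nat.card {v : AlgebraicClosure κ × AlgebraicClosure κ × AlgebraicClosure κ //
    v.1 ^ Q = v.1 ∧ v.2.1 ^ Q = v.2.1 ∧ v.2.2 ^ Q = v.2.2 ∧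
    v.2.2 ^ p - v.2.2 =
      f.eval₂ (eval₂RingHom (algebraMap κ (AlgebraicClosure κ)) v.1) v.2.1}

/-- The known properties of Frobenius `Φ` on the second cohomology with compact supports `V` of the
affine surface `y ^ p - y = f(x, t)` (the other groups with compact supports are `0` and, in
degree four, one-dimensional): the Lefschetz trace formula holds and `V` is pure of weight two. -/
structure IsCohomology (p : ℕ) (f : κ[X][X]) {V : Type} [AddCommGroup V] [Module ℂ V]
    (Φ : Module.End ℂ V) : Prop where
  trace : ∀ m : ℕ, m ≠ 0 → LinearMap.trace ℂ V (Φ ^ m) =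
    (points p f (Nat.card κ ^ m) : ℂ) - ((Nat.card κ : ℂ) ^ m) ^ 2
  pure : ∀ α, Φ.HasEigenvalue α → ‖α‖ = (Nat.card κ : ℝ)

/-- The known properties of Frobenius `F` and of the cup product form `BX` on the whole cohomology `H`
of a smooth projective compactification of the affine surface for which all curves at infinity
are defined over `κ`: `W j` is the span of the classes of the algebraic cycles of codimension `j`, `ι`
is the natural map from the cohomology with compact supports. The last property says that
homological and numerical equivalence agree on this surface. -/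
structure IsCompactification (κ : Type) {V H : Type} [AddCommGroup V] [Module ℂ V]
    [AddCommGroup H] [Module ℂ H] (Φ : Module.End ℂ V) (F : Module.End ℂ H) (ι : V →ₗ[ℂ] H)
    (W : ℤ → Submodule ℂ H) (BX : LinearMap.BilinForm ℂ H) : Prop where
  comm : ∀ v, ι (Φ v) = F (ι v)
  algebraic : ∀ j : ℤ, ∀ w ∈ W j, F w = (Nat.card κ : ℂ) ^ j • w
  span : (⨆ j, W j) ⊔ LinearMap.range ι = ⊤
  symm : ∀ x y, BX x y = BX y x
  orthogonal : ∀ i j, i + j ≠ 2 → ∀ x ∈ W i, ∀ y ∈ W j, BX x y = 0
  nondegenerate : ∀ j, ∀ x ∈ W j, (∀ y ∈ W (2 - j), BX x y = 0) → x = 0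

end surface

section cycles

variable {H Z : Type} [AddCommGroup H] [Module ℂ H] [AddCommGroup Z] [Module ℂ Z]

/-- The linear map `h ⊗ z ↦ ⟨w, h⟩ z`: the direct image on the second factor of the product with the
inverse image of `w`. -/
noncomputable def pushforward (BX : LinearMap.BilinForm ℂ H) (w : H) : H ⊗[ℂ] Z →ₗ[ℂ] Z :=
  (TensorProduct.lid ℂ Z).toLinearMap ∘ₗ LinearMap.rTensor Z (BX w)

/-- The known properties of the spans `A j` of the classes of the algebraic cycles of codimension `j`
over the field with `q` elements on a variety with cohomology `Z`, and of the spans `C j` of the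
classes of the algebraic cycles on the product with the surface, with cohomology `H ⊗ Z`: Frobenius is
the multiplication by `q ^ j` on `A j` and `C j`, products of algebraic classes are algebraic, and
the direct image of the product of a class in `C r` with the inverse image of a class in `W j` is in
`A (r + j - 2)`. -/
structure AreCycleClasses (q : ℕ) (F : Module.End ℂ H) (G : Module.End ℂ Z)
    (BX : LinearMap.BilinForm ℂ H) (W : ℤ → Submodule ℂ H) (A : ℤ → Submodule ℂ Z)
    (C : ℤ → Submodule ℂ (H ⊗[ℂ] Z)) : Prop where
  frobenius_left : ∀ j : ℤ, ∀ z ∈ A j, G z = (q : ℂ) ^ j • z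
  frobenius : ∀ r : ℤ, ∀ c ∈ C r, (TensorProduct.map F G) c = (q : ℂ) ^ r • c
  product : ∀ i j, ∀ w ∈ W i, ∀ z ∈ A j, w ⊗ₜ[ℂ] z ∈ C (i + j)
  push : ∀ r j, ∀ c ∈ C r, ∀ w ∈ W j, pushforward BX w c ∈ A (r + j - 2)

/-- The order of the pole of the zeta function at `s = n`: the algebraic multiplicity of the
eigenvalue `q ^ n` of Frobenius `G` on the whole cohomology `Z`. -/
noncomputable def poleOrder (q : ℕ) (G : Module.End ℂ Z) (n : ℤ) : ℕ :=
  finrank ℂ (G.maxGenEigenspace ((q : ℂ) ^ n))

/-- The map which takes an algebraic class of codimension `n` to its intersection numbers with the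
algebraic classes of complementary dimension. -/
noncomputable def intersection (B : LinearMap.BilinForm ℂ Z) (A : ℤ → Submodule ℂ Z) (d n : ℤ) :
    A n →ₗ[ℂ] Dual ℂ (A (d - n)) :=
  (LinearMap.lcomp ℂ ℂ (A (d - n)).subtype) ∘ₗ LinearMap.flip B ∘ₗ (A n).subtype

/-- The rank of the group of the algebraic cycles of codimension `n` modulo numerical equivalence, for
a variety of dimension `d`: the rank of the intersection pairing. -/
noncomputable def numericalRank (B : LinearMap.BilinForm ℂ Z) (A : ℤ → Submodule ℂ Z) (d n : ℤ) :
    ℕ :=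
  finrank ℂ (LinearMap.range (intersection B A d n))

end cycles

/-- The slope of `β` for an embedding `τ` of the complex numbers in an algebraic closure of `ℚ_p`: the
`p`-adic valuation of `τ β`, normalized so that `q` has slope one. -/
noncomputable def slope (p : ℕ) [Fact p.Prime] (q : ℕ) (τ : ℂ →+* PadicAlgCl p) (β : ℂ) : ℝ :=
  Real.log ‖τ β‖ / Real.log ‖(q : PadicAlgCl p)‖

/-- The number `s` is not of the form `r + i / a + j / b` with `r ∈ ℤ`, `0 < i < a`, `0 < j < b`. For
coprime `a` and `b` this means: if `a b s` is an integer then `a s` or `b s` is an integer. -/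
def Avoids (a b : ℕ) (s : ℝ) : Prop :=
  ∀ (r : ℤ) (i j : ℕ), 0 < i → i < a → 0 < j → j < b → s ≠ r + i / a + j / b

/-- **The pole formula for products of surfaces `y ^ p - y = f(x, t)` with arbitrary varieties.**

Let `p` be a prime, `κ` a finite field with `q` elements of characteristic `p`, let `a` and `b` divide
`p - 1`, and let `f = u x ^ a + w t ^ b + …` in `κ[x, t]`, where `u, w ≠ 0` and the other terms
`x ^ m t ^ n` have `m / a + n / b < 1` (all of them are allowed, with any coefficients). Let `𝒳` be
any smooth projective surface over `κ` which contains the affine surface `U : y ^ p - y = f(x, t)` as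
the complement of a union of curves defined over `κ` (this is true after a finite extension
of `κ`). Let `H` be the cohomology of `𝒳` (all degrees, coefficients `ℂ ≅ ℚ̄_ℓ`, with the form
`⟨x, y⟩ = ∫ x ∪ y`) and let `V = H ^ 2_c(U) ⊗ ℂ`. Then `H ^ 1(𝒳) = H ^ 3(𝒳) = 0`
(`H ^ 1(𝒳) → H ^ 1(U)` is injective and `H ^ 1(U)` is dual to `H ^ 3_c(U) = 0`), `H ^ 0` and `H ^ 4` are
spanned by algebraic classes, and `H ^ 2(𝒳)` is spanned by the classes of the curves at infinity and the
image of `V`; homological and numerical equivalence agree on surfaces (`IsCompactification`). `V` is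
pure of weight two (Deligne, Adolphson and Sperber, Denef and Loeser) and its traces are given by
the Lefschetz formula (`IsCohomology`).

Let `𝒵` be **any** smooth projective variety over `κ` of dimension `d`, with cohomology `Z` and
Frobenius `G`, and let `n` be an integer. Suppose that each eigenvalue `β` of Frobenius on
`H ^ (2 n - 2)(𝒵)` has a `p`-adic slope, for some embedding `τ`, which is not of the form
`r + i / a + j / b` with `r ∈ ℤ`, `0 < i < a`, `0 < j < b`. Then the conjecture for `𝒳 × 𝒵` at `s = n`,

  the order of the pole of `ζ(𝒳 × 𝒵, s)` at `s = n` is the rank of `A ^ n_num(𝒳 × 𝒵)`,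

is true **if and only if** the conjecture for `𝒵` is true at `s = n`, `s = n - 1` and `s = n - 2`
(`W j ≠ 0` for `j = 0, 1, 2` only). Nothing is assumed about the cycles on `𝒵`.

For coprime `a`, `b` the condition on the slopes holds for example if the slopes of `𝒵` in even
degrees have denominators prime to `a`, or prime to `b`: for curves, for ordinary varieties, for
varieties with slopes in `(1 / 2) ℤ`, for all `𝒵` whose Betti numbers are smaller than all prime
factors of `a` (the denominator of a slope is at most its multiplicity), for K3 surfaces of finite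
height `h` prime to `a` or to `b`, and for K3 surfaces of finite height `h` with `22 - ρ > 2 h`.
Since `𝒳 × 𝒵` again has slopes with bounded denominators, the theorem can be applied to products
of several such surfaces with suitable exponents. The Betti numbers and the geometric genus of `𝒳`
are not bounded, and the coefficients of `f` are arbitrary.

The eigenvalues on `V` have the slopes `i / a + j / b`, `0 < i < a`, `0 < j < b`; this is proved here
from the number of points by Dwork's `p`-adic method and complex conjugation. So there are no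
(generalized) Tate classes in the tensor product of `V` with the cohomology of `𝒵`. -/
theorem result {κ : Type} [Field κ] [Finite κ] {p : ℕ} [Fact p.Prime] [CharP κ p] {a b : ℕ}
    {f : κ[X][X]} (hf : HasLeadingExponents a b f) (ha : a ∣ p - 1) (hb : b ∣ p - 1)
    {V : Type} [AddCommGroup V] [Module ℂ V] [FiniteDimensional ℂ V] {Φ : Module.End ℂ V}
    (h : IsCohomology p f Φ)
    {H : Type} [AddCommGroup H] [Module ℂ H] [FiniteDimensional ℂ H] {F : Module.End ℂ H}
    {ι : V →ₗ[ℂ] H} {W : ℤ → Submodule ℂ H} {BX : LinearMap.BilinForm ℂ H}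
    (hH : IsCompactification κ Φ F ι W BX)
    {Z : Type} [AddCommGroup Z] [Module ℂ Z] [FiniteDimensional ℂ Z] {G : Module.End ℂ Z}
    {A : ℤ → Submodule ℂ Z} {C : ℤ → Submodule ℂ (H ⊗[ℂ] Z)}
    (hC : AreCycleClasses (Nat.card κ) F G BX W A C) (BZ : LinearMap.BilinForm ℂ Z) (d n : ℤ)
    (hn : ∀ β, G.HasEigenvalue β → ‖β‖ = (Nat.card κ : ℝ) ^ (n - 1) →
      ∃ τ : ℂ →+* PadicAlgCl p, Avoids a b (slope p (Nat.card κ) τ β)) :
    poleOrder (Nat.card κ) (TensorProduct.map F G) n = numericalRank (BX.tmul BZ) C (d + 2) n ↔
      ∀ j, W j ≠ ⊥ → poleOrder (Nat.card κ) G (n - j) = numericalRank BZ A d (n - j) := by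
  classical
  have : Fintype κ := Fintype.ofFinite κ
  have hcard : Nat.card κ = Fintype.card κ := Nat.card_eq_fintype_card
  have hD : Pool.Agent.U407.NP.Dg a b f :=
    ⟨hf.pos_a, hf.pos_b, hf.coeff_x, hf.coeff_t, hf.rest⟩
  have htr : ∀ m, m ≠ 0 → LinearMap.trace ℂ V (Φ ^ m) =
      (Pool.Agent.N867.AS.Trans.Npts p f (Fintype.card κ ^ m) : ℂ) -
        ((Fintype.card κ : ℂ) ^ m) ^ 2 := by
    intro m hm
    rw [← hcard]
    exact h.trace m hm
  have hpure : ∀ α, Φ.HasEigenvalue α → ‖α‖ = (Fintype.card κ : ℝ) := by
    rw [← hcard]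
    exact h.pure
  have hW := hH.algebraic
  have hA := hC.frobenius_left
  have hfr := hC.frobenius
  unfold poleOrder numericalRank
  rw [hcard] at hW hn hA hfr ⊢
  rw [Pool.Agent.U407.NP.tmul_eq]
  exact Pool.Agent.U407.NP.pole hD ha hb htr hpure hH.comm hW hH.span hH.symm hH.orthogonal
    hH.nondegenerate BZ hA hfr hC.product hC.push d n hn

end Pool.Agent.Results.MP_557161_ag.TimesArtinSchreierSurfaces
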